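import Pool.Agent.H24.KTH.Top
import Pool.Agent.H73.KRN.Geo
import Pool.Agent.H94.KRN.GEO2

/-!
# KTH: Kakeya sets from the entropy bound
-/

set_option autoImplicit false

open MeasureTheory

namespace Pool.Agent.H24.KTH

/-- **DIM**. -/
theorem dim_thm : DIMStmt := by
  intro hEF n hn K hK
  obtain ⟨m, rfl⟩ : ∃ m, n = m + 1 := ⟨n - 1, by omega⟩
  have hm : 7 ≤ m := by omega
  have hmr : (7 : ℝ) ≤ m := by exact_mod_cast hm
  obtain ⟨s, hs⟩ : ∃ s : ℝ, s = (m + 0.28) / 1.6752 := ⟨_, rfl⟩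
  have hs0 : 0 ≤ s := by rw [hs]; positivity
  have hsm : s ≤ m := by
    rw [hs, div_le_iff₀ (by norm_num)]
    linarith
  have h1 : Pool.KRN.EF m s := by rw [hs]; exact hEF m hm
  have h2 : Pool.KRN.DensG m (m - s) := Pool.KRN73.geoOne m s (by omega) hs0 hsm h1
  have h3 := Pool.KRN.t_geo2 m (m - s) (by linarith) (by linarith) h2 K hK
  refine le_trans (le_of_eq ?_) h3
  congr 1
  rw [hs]
  push_cast
  ring

end Pool.Agent.H24.KTH
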