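import Pool.Agent.H24.KTH.Geo
import Pool.Agent.H53.Dense.Iter
import Pool.Agent.H32.Dense.Step
import Pool.Agent.H32.Dense.Loc
import Pool.Agent.H32.Dense.Zero

/-!
# KTH: the inequality of H32 with the exponent `1.6752` in every dimension
-/

set_option autoImplicit false

namespace Pool.Agent.H24.KTH

open Finset Real
open Pool.Agent.H49.Ent Pool.Agent.H32.Dense
open Pool.Agent.H53.Dns (alpha_bounds step_sub)

/-- The root of `α ^ 3 = 4 α - 2` in `(1, 2)`. -/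
theorem exists_alpha : ∃ α : ℝ, 1 < α ∧ α ^ 3 = 4 * α - 2 := by
  have hc : ContinuousOn (fun x : ℝ => x ^ 3 - 4 * x + 2) (Set.Icc 1.5 2) := by fun_prop
  have h := intermediate_value_Icc (by norm_num : (1.5 : ℝ) ≤ 2) hc
  have h0 : (0 : ℝ) ∈ Set.Icc ((1.5 : ℝ) ^ 3 - 4 * 1.5 + 2) ((2 : ℝ) ^ 3 - 4 * 2 + 2) := by
    constructor <;> norm_num
  obtain ⟨α, hα, h1⟩ := h h0
  refine ⟨α, ?_, ?_⟩
  · have := hα.1
    norm_num at this ⊢
    linarith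
  · have h2 : α ^ 3 - 4 * α + 2 = 0 := h1
    linarith

/-- The iteration without the bound for the coefficient of the deficit. -/
theorem akg_all (d : ℕ) {α : ℝ} (h1 : 1 < α) (hα : α ^ 3 = 4 * α - 2) {x : ℝ} (hx : α < x) :
    ∃ a lam B₀ B₁ : ℝ, α < a ∧ a < x ∧ 0 ≤ lam ∧ 0 ≤ B₁ ∧ AKG d a lam B₀ B₁ := by
  obtain ⟨hα1, hα2⟩ := alpha_bounds h1 hα
  have hd' : (0 : ℝ) ≤ d := Nat.cast_nonneg d
  have key : ∀ k : ℕ, ∃ a lam B₀ B₁ : ℝ, α < a ∧ a ≤ 2 ∧ a - α ≤ (1 / 2) ^ k ∧ 0 ≤ lam ∧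
      0 ≤ B₁ ∧ AKG d a lam B₀ B₁ := by
    intro k
    induction k with
    | zero =>
      refine ⟨2, 2, 2 * d, d, by linarith, le_rfl, ?_, by norm_num, hd', level0G d⟩
      rw [pow_zero]; linarith
    | succ k ih =>
      obtain ⟨a, lam, B₀, B₁, ha1, ha2, hak, hl0, hB, hA⟩ := ih
      obtain ⟨B, hB'⟩ := akd_of_akg hA (by linarith) hl0 hB one_pos
      have hm0 : 0 ≤ max lam ((1 + 1) * ((d : ℝ) + 1)) := le_max_of_le_left hl0
      obtain ⟨B₀', B₁', hB₁', hA'⟩ := step_gen hB' (by linarith) ha2 hm0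
      have hD : 0 < a ^ 2 + 3 * a - 2 := by nlinarith
      have hsub := step_sub hα hD
      have hn1 : 0 < (3 - α) * a + 2 - α ^ 2 := by nlinarith
      have hn2 : (3 - α) * a + 2 - α ^ 2 ≤ 1 / 2 * (a ^ 2 + 3 * a - 2) := by nlinarith
      have hr1 : 0 < ((3 - α) * a + 2 - α ^ 2) / (a ^ 2 + 3 * a - 2) := div_pos hn1 hD
      have hr2 : ((3 - α) * a + 2 - α ^ 2) / (a ^ 2 + 3 * a - 2) ≤ 1 / 2 := by
        rw [div_le_iff₀ hD]; exact hn2
      have haα : 0 < a - α := by linarith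
      have hp1 : 0 < (a - α) * (((3 - α) * a + 2 - α ^ 2) / (a ^ 2 + 3 * a - 2)) :=
        mul_pos haα hr1
      have hp2 : (a - α) * (((3 - α) * a + 2 - α ^ 2) / (a ^ 2 + 3 * a - 2)) ≤
          (a - α) * (1 / 2) := mul_le_mul_of_nonneg_left hr2 haα.le
      refine ⟨_, _, B₀', B₁', ?_, ?_, ?_, ?_, hB₁', hA'⟩
      · linarith
      · linarith
      · have hpk : (1 / 2 : ℝ) ^ (k + 1) = (1 / 2) ^ k * (1 / 2) := pow_succ _ _
        linarith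
      · apply div_nonneg _ hD.le
        nlinarith
  obtain ⟨k, hk⟩ := exists_pow_lt_of_lt_one (sub_pos.mpr hx) (by norm_num : (1 / 2 : ℝ) < 1)
  obtain ⟨a, lam, B₀, B₁, ha1, -, hak, hl0, hB, hA⟩ := key k
  exact ⟨a, lam, B₀, B₁, ha1, by linarith, hl0, hB, hA⟩

/-- `AKD` is monotone in the exponent. -/
theorem AKD.mono {d : ℕ} {a a' lam B : ℝ} (h : AKD d a lam B) (ha : a ≤ a') : AKD d a' lam B := by
  intro M Ω _ ζ p Z v u τ hF
  have h1 := h M Ω ζ p Z v u τ hF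
  have h2 : 0 ≤ Sf M p Z v u τ := CH_nonneg hF.hp _ _
  nlinarith

/-- **AKA**. -/
theorem aka_thm : AKAStmt := by
  intro d
  obtain ⟨α, h1, hα⟩ := exists_alpha
  obtain ⟨-, hα2⟩ := alpha_bounds h1 hα
  obtain ⟨a, lam, B₀, B₁, ha1, ha2, hl0, hB, hA⟩ := akg_all d h1 hα hα2
  obtain ⟨B, hB'⟩ := akd_of_akg hA (by linarith) hl0 hB one_pos
  exact ⟨_, B, le_max_of_le_left hl0, AKD.mono hB' ha2.le⟩

end Pool.Agent.H24.KTH
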